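import Pool.Agent.P8H39.FDF.Stm

set_option autoImplicit false

/-!
# Project FDF: the partition into three parts (package PART)
-/

namespace Pool.Agent.P8H52.FDF

open P8H39.FDF Finset

section av

variable {V : Type} [Fintype V]

theorem av_add (f g : V → ℝ) : av (fun x => f x + g x) = av f + av g := by
  unfold av; rw [Finset.sum_add_distrib, add_div]

theorem av_sub (f g : V → ℝ) : av (fun x => f x - g x) = av f - av g := by
  unfold av; rw [Finset.sum_sub_distrib, sub_div]

theorem av_cmul (a : ℝ) (f : V → ℝ) : av (fun x => a * f x) = a * av f := by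
  unfold av; rw [← Finset.mul_sum, mul_div_assoc]

theorem av_mulc (a : ℝ) (f : V → ℝ) : av (fun x => f x * a) = av f * a := by
  unfold av; rw [← Finset.sum_mul, div_mul_eq_mul_div]

theorem av_mono {f g : V → ℝ} (h : ∀ x, f x ≤ g x) : av f ≤ av g := by
  unfold av
  exact div_le_div_of_nonneg_right (Finset.sum_le_sum fun x _ => h x) (Nat.cast_nonneg _)

theorem av_nonneg {f : V → ℝ} (h : ∀ x, 0 ≤ f x) : 0 ≤ av f := by
  unfold av
  exact div_nonneg (Finset.sum_nonneg fun x _ => h x) (Nat.cast_nonneg _)

theorem av_const [Nonempty V] (a : ℝ) : av (fun _ : V => a) = a := by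
  unfold av
  rw [Finset.sum_const, Finset.card_univ, nsmul_eq_mul]
  have : (Fintype.card V : ℝ) ≠ 0 := by
    exact_mod_cast Fintype.card_ne_zero
  field_simp

theorem B_nonneg (b : Bool) : 0 ≤ B b := by unfold B; split_ifs <;> norm_num

@[simp] theorem B_true : B true = 1 := rfl
@[simp] theorem B_false : B false = 0 := by simp [B]

end av

/-! ### numbers -/

theorem num_size {g h k w : ℝ} (hw : 0.9955 ≤ w) (hw1 : w ≤ 1) (hs : g + h + k = w)
    (hq : g ^ 2 + h ^ 2 + k ^ 2 ≤ 0.34675) : 0.2272 ≤ g ∧ g ≤ 0.4365 := by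
  have h1 : 3 / 2 * g ^ 2 - w * g + w ^ 2 / 2 ≤ 0.34675 := by
    have : (h - k) ^ 2 ≥ 0 := sq_nonneg _
    have h2 : h = w - g - k := by linarith
    subst h2
    nlinarith
  constructor
  · by_contra hc
    push Not at hc
    nlinarith [mul_nonneg (sub_nonneg.2 hw) (sub_nonneg.2 hc.le), sq_nonneg (w - 0.9955),
      sq_nonneg (g - 0.2272)]
  · by_contra hc
    push Not at hc
    nlinarith [mul_nonneg (sub_nonneg.2 hw) (sub_nonneg.2 hc.le), sq_nonneg (w - 0.9955),
      sq_nonneg (g - 0.4365), mul_nonneg (sub_nonneg.2 hw1) (sub_nonneg.2 hc.le)]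

theorem num_mu {a n b : ℝ} (ha : 0 ≤ a) (hab : a + n = b) (hb : 0.2272 ≤ b)
    (hs : a * n ≤ 0.0089) (h : a ≤ n) : 0.1768 ≤ n ∧ 0.1768 * a ≤ a * n := by
  have h1 : a ≤ 0.0504 := by
    by_contra hc
    push Not at hc
    nlinarith
  have h2 : 0.1768 ≤ n := by linarith
  exact ⟨h2, by nlinarith⟩

/-! ### the masses -/

section masses

variable {V : Type} [Fintype V] (r : V → V → Bool) (c : V → Fin 4)

/-- mass of a class -/
noncomputable def be (j : Fin 3) : ℝ := av fun y => B (decide (c y = j.castSucc))

/-- adjacent part -/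
noncomputable def aa (j : Fin 3) (x : V) : ℝ := av fun y => B (decide (c y = j.castSucc) && adj r x y)

/-- non-adjacent part -/
noncomputable def nn (j : Fin 3) (x : V) : ℝ := av fun y => B (decide (c y = j.castSucc) && !adj r x y)

theorem aa_nonneg (j : Fin 3) (x : V) : 0 ≤ aa r c j x := av_nonneg fun _ => B_nonneg _
theorem nn_nonneg (j : Fin 3) (x : V) : 0 ≤ nn r c j x := av_nonneg fun _ => B_nonneg _

theorem aa_add_nn (j : Fin 3) (x : V) : aa r c j x + nn r c j x = be c j := by
  unfold aa nn be
  rw [← av_add]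
  congr 1
  funext y
  cases adj r x y <;> simp

theorem four (i : Fin 4) : i = 0 ∨ i = 1 ∨ i = 2 ∨ i = 3 := by
  fin_cases i <;> simp

theorem be_sum [Nonempty V] : be c 0 + be c 1 + be c 2 = 1 - cu c := by
  unfold be cu
  rw [← av_add, ← av_add, ← av_const (V := V) 1, ← av_sub]
  congr 1
  funext y
  rcases four (c y) with h | h | h | h <;> rw [h] <;> simp [B]

theorem dn_ge (x : V) : nn r c 0 x + nn r c 1 x + nn r c 2 x ≤ dn r x := by
  unfold nn dn
  rw [← av_add, ← av_add]
  refine av_mono fun y => ?_
  rcases four (c y) with h | h | h | h <;> rw [h] <;> cases adj r x y <;> simp [B]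

theorem dn_le (x : V) : dn r x ≤ nn r c 0 x + nn r c 1 x + nn r c 2 x + cu c := by
  unfold nn dn cu
  rw [← av_add, ← av_add, ← av_add]
  refine av_mono fun y => ?_
  rcases four (c y) with h | h | h | h <;> rw [h] <;> cases adj r x y <;> simp [B]

theorem ce_nonneg : 0 ≤ ce r c := av_nonneg fun _ => av_nonneg fun _ => B_nonneg _
theorem cu_nonneg : 0 ≤ cu c := av_nonneg fun _ => B_nonneg _

theorem rho_eq [Nonempty V] : (av fun x => av fun y => B (!adj r x y)) = 1 - rho r := by
  unfold rho
  rw [← av_const (V := V) 1, ← av_sub]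
  congr 1
  funext x
  rw [← av_const (V := V) 1, ← av_sub]
  congr 1
  funext y
  cases adj r x y <;> simp

theorem sq_eq (D : V → Fin 4) (j : Fin 3) : be D j ^ 2 =
    av fun x => av fun y => B (decide (D x = j.castSucc)) * B (decide (D y = j.castSucc)) := by
  simp only [av_cmul, av_mulc]
  rw [sq]
  rfl

/-- sub-classes have masses with small sum of squares -/
theorem sizes [Nonempty V] (D : V → Fin 4) (hD : ∀ x, D x ≠ 3 → c x = D x) :
    be D 0 ^ 2 + be D 1 ^ 2 + be D 2 ^ 2 ≤ 1 - rho r + ce r c := by
  rw [sq_eq, sq_eq, sq_eq, ← rho_eq]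
  unfold ce
  rw [← av_add, ← av_add, ← av_add]
  refine av_mono fun x => ?_
  rw [← av_add, ← av_add, ← av_add]
  refine av_mono fun y => ?_
  by_cases h1 : D x = 3
  · have e1 : B (decide (D x = (0 : Fin 3).castSucc)) = 0 := by rw [h1]; rfl
    have e2 : B (decide (D x = (1 : Fin 3).castSucc)) = 0 := by rw [h1]; rfl
    have e3 : B (decide (D x = (2 : Fin 3).castSucc)) = 0 := by rw [h1]; rfl
    rw [e1, e2, e3]
    have := B_nonneg (!adj r x y)
    have := B_nonneg (decide (c x = c y) && !decide (c x = 3) && adj r x y)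
    linarith
  by_cases h2 : D y = 3
  · have e1 : B (decide (D y = (0 : Fin 3).castSucc)) = 0 := by rw [h2]; rfl
    have e2 : B (decide (D y = (1 : Fin 3).castSucc)) = 0 := by rw [h2]; rfl
    have e3 : B (decide (D y = (2 : Fin 3).castSucc)) = 0 := by rw [h2]; rfl
    rw [e1, e2, e3]
    have := B_nonneg (!adj r x y)
    have := B_nonneg (decide (c x = c y) && !decide (c x = 3) && adj r x y)
    linarith
  rw [hD x h1, hD y h2]
  rcases four (D x) with h | h | h | h <;> rcases four (D y) with h' | h' | h' | h' <;>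
    first
    | exact absurd h h1
    | exact absurd h' h2
    | (rw [h, h']; cases adj r x y <;> simp [B])

theorem three (i : Fin 3) : i = 0 ∨ i = 1 ∨ i = 2 := by
  fin_cases i <;> simp

theorem exists_cast (i : Fin 4) (h : i ≠ 3) : ∃ j : Fin 3, i = j.castSucc := by
  rcases four i with h' | h' | h' | h'
  · exact ⟨0, h'⟩
  · exact ⟨1, h'⟩
  · exact ⟨2, h'⟩
  · exact absurd h' h

/-- the imperfect pairs -/
theorem imp_le (p : V → Fin 3) (x : V) (q : Fin 3) :
    (av fun y => B (decide (p y = q) && adj r x y)) +
      (av fun y => B (!decide (p y = q) && !adj r x y)) ≤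
    (if q = 0 then aa r c 0 x else nn r c 0 x) + (if q = 1 then aa r c 1 x else nn r c 1 x) +
      (if q = 2 then aa r c 2 x else nn r c 2 x) +
      av fun y => B (!decide (c y = (p y).castSucc)) := by
  have h : ∀ j : Fin 3, (if q = j then aa r c j x else nn r c j x) =
      av fun y => if q = j then B (decide (c y = j.castSucc) && adj r x y) else
        B (decide (c y = j.castSucc) && !adj r x y) := by
    intro j
    split_ifs <;> rfl
  rw [h, h, h, ← av_add, ← av_add, ← av_add, ← av_add]
  refine av_mono fun y => ?_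
  rcases three q with h1 | h1 | h1 <;> rcases three (p y) with h2 | h2 | h2 <;>
    rcases four (c y) with h3 | h3 | h3 | h3 <;> rw [h1, h2, h3] <;> cases adj r x y <;> simp [B]

end masses

/-- package PART -/
theorem t_PART : S_PT1 → S_PART := by
  intro hPT V _ _ _ r hO hf hV hρ hc
  obtain ⟨c, hc⟩ := hc
  have e0 := ce_nonneg r c
  have u0 := cu_nonneg c
  have he : ce r c ≤ 0.00075 := by linarith
  have hu : cu c ≤ 0.0045 := by linarith
  -- the basic inequality
  have key1 : ∀ x, aa r c 0 x * nn r c 0 x + aa r c 1 x * nn r c 1 x + aa r c 2 x * nn r c 2 x ≤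
      0.0089 ∧ 0.187 ≤ dn r x ∧ dn r x ≤ 0.4543 := by
    intro x
    have h := hPT V r c x hO (hf x)
    rw [Finset.sum_insert (by decide), Finset.sum_insert (by decide), Finset.sum_singleton] at h
    have h1 : (dp r x - 1 / 3) ^ 2 + (dn r x - 1 / 3) ^ 2 + 2 * (aa r c 0 x * nn r c 0 x +
        (aa r c 1 x * nn r c 1 x + aa r c 2 x * nn r c 2 x)) ≤
        ce r c + (1 - dp r x - dn r x) / 40 + 40 * V3 r := h
    have p0 := mul_nonneg (aa_nonneg r c 0 x) (nn_nonneg r c 0 x)
    have p1 := mul_nonneg (aa_nonneg r c 1 x) (nn_nonneg r c 1 x)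
    have p2 := mul_nonneg (aa_nonneg r c 2 x) (nn_nonneg r c 2 x)
    have q1 := sq_nonneg (dp r x - 1 / 3 + 1 / 80)
    have q2 := sq_nonneg (dn r x - 1 / 3 + 1 / 80)
    have h2 : (dn r x - 1 / 3 + 1 / 80) ^ 2 ≤ 0.01779584 := by nlinarith
    refine ⟨by nlinarith, ?_, ?_⟩
    · by_contra hcon
      push Not at hcon
      nlinarith
    · by_contra hcon
      push Not at hcon
      nlinarith
  have hsum := be_sum c
  have hsz := sizes r c c (fun _ _ => rfl)
  have hb0 : 0.2272 ≤ be c 0 ∧ be c 0 ≤ 0.4365 :=
    num_size (w := 1 - cu c) (g := be c 0) (h := be c 1) (k := be c 2) (by linarith) (by linarith)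
      (by linarith) (by linarith)
  have hb1 : 0.2272 ≤ be c 1 ∧ be c 1 ≤ 0.4365 :=
    num_size (w := 1 - cu c) (g := be c 1) (h := be c 0) (k := be c 2) (by linarith) (by linarith)
      (by linarith) (by linarith)
  have hb2 : 0.2272 ≤ be c 2 ∧ be c 2 ≤ 0.4365 :=
    num_size (w := 1 - cu c) (g := be c 2) (h := be c 0) (k := be c 1) (by linarith) (by linarith)
      (by linarith) (by linarith)
  have hbj : ∀ j : Fin 3, 0.2272 ≤ be c j := by
    intro j
    rcases three j with h | h | h <;> rw [h]
    exacts [hb0.1, hb1.1, hb2.1]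
  have hprod : ∀ (j : Fin 3) (x : V), aa r c j x * nn r c j x ≤ 0.0089 := by
    intro j x
    have h := (key1 x).1
    have p0 := mul_nonneg (aa_nonneg r c 0 x) (nn_nonneg r c 0 x)
    have p1 := mul_nonneg (aa_nonneg r c 1 x) (nn_nonneg r c 1 x)
    have p2 := mul_nonneg (aa_nonneg r c 2 x) (nn_nonneg r c 2 x)
    rcases three j with h | h | h <;> rw [h] <;> linarith
  have ka : ∀ (j : Fin 3) (x : V), aa r c j x ≤ nn r c j x →
      0.1768 ≤ nn r c j x ∧ 0.1768 * aa r c j x ≤ aa r c j x * nn r c j x := fun j x h =>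
    num_mu (aa_nonneg r c j x) (aa_add_nn r c j x) (hbj j) (hprod j x) h
  have kn : ∀ (j : Fin 3) (x : V), nn r c j x ≤ aa r c j x →
      0.1768 ≤ aa r c j x ∧ 0.1768 * nn r c j x ≤ aa r c j x * nn r c j x := fun j x h => by
    have h1 := num_mu (nn_nonneg r c j x) (by rw [add_comm]; exact aa_add_nn r c j x) (hbj j)
      (by rw [mul_comm]; exact hprod j x) h
    rw [mul_comm (nn r c j x)] at h1
    exact h1
  -- the part of a vertex
  have hex : ∀ x, ∃ j : Fin 3, aa r c j x < nn r c j x ∧ ∀ k, k ≠ j → nn r c k x ≤ aa r c k x := by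
    intro x
    obtain ⟨k1, k2, k3⟩ := key1 x
    have d1 := dn_ge r c x
    have d2 := dn_le r c x
    have s0 := aa_add_nn r c 0 x
    have s1 := aa_add_nn r c 1 x
    have s2 := aa_add_nn r c 2 x
    have n0 := nn_nonneg r c 0 x
    have n1 := nn_nonneg r c 1 x
    have n2 := nn_nonneg r c 2 x
    have p0 := mul_nonneg (aa_nonneg r c 0 x) (nn_nonneg r c 0 x)
    have p1 := mul_nonneg (aa_nonneg r c 1 x) (nn_nonneg r c 1 x)
    have p2 := mul_nonneg (aa_nonneg r c 2 x) (nn_nonneg r c 2 x)
    rcases lt_or_ge (aa r c 0 x) (nn r c 0 x) with h0 | h0 <;>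
      rcases lt_or_ge (aa r c 1 x) (nn r c 1 x) with h1 | h1 <;>
      rcases lt_or_ge (aa r c 2 x) (nn r c 2 x) with h2 | h2
    · have a0 := ka 0 x h0.le; have a1 := ka 1 x h1.le
      exact absurd k3 (by linarith [hb2.2])
    · have a0 := ka 0 x h0.le; have a1 := ka 1 x h1.le
      exact absurd k3 (by linarith [hb2.2])
    · have a0 := ka 0 x h0.le; have a1 := ka 2 x h2.le
      exact absurd k3 (by linarith [hb1.2])
    · refine ⟨0, h0, fun k hk => ?_⟩
      rcases three k with h | h | h
      · exact absurd h hk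
      · rw [h]; exact h1
      · rw [h]; exact h2
    · have a0 := ka 1 x h1.le; have a1 := ka 2 x h2.le
      exact absurd k3 (by linarith [hb0.2])
    · refine ⟨1, h1, fun k hk => ?_⟩
      rcases three k with h | h | h
      · rw [h]; exact h0
      · exact absurd h hk
      · rw [h]; exact h2
    · refine ⟨2, h2, fun k hk => ?_⟩
      rcases three k with h | h | h
      · rw [h]; exact h0
      · rw [h]; exact h1
      · exact absurd h hk
    · have a0 := (kn 0 x h0).2; have a1 := (kn 1 x h1).2; have a2 := (kn 2 x h2).2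
      exact absurd k2 (by linarith)
  choose p hp1 hp2 using hex
  -- the exceptional set
  obtain ⟨z, hz⟩ : ∃ z, z = av fun y => B (!decide (c y = (p y).castSucc)) := ⟨_, rfl⟩
  have hz0 : 0 ≤ z := by rw [hz]; exact av_nonneg fun _ => B_nonneg _
  have hz1 : z ≤ 0.0045 := by
    obtain ⟨z', hz'⟩ : ∃ z', z' = av fun x => B (!decide (c x = 3) &&
      !decide (c x = (p x).castSucc)) := ⟨_, rfl⟩
    have h1 : z ≤ cu c + z' := by
      rw [hz, hz']
      unfold cu
      rw [← av_add]
      refine av_mono fun y => ?_
      generalize decide (c y = 3) = b1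
      generalize decide (c y = (p y).castSucc) = b2
      cases b1 <;> cases b2 <;> simp
    have h2 : 0.1768 * z' ≤ ce r c := by
      rw [hz', ← av_cmul]
      unfold ce
      refine av_mono fun x => ?_
      by_cases h : c x = 3
      · simp only [h, decide_true, Bool.not_true, Bool.false_and, B_false, mul_zero]
        exact av_nonneg fun _ => B_nonneg _
      obtain ⟨j, hj⟩ := exists_cast _ h
      by_cases h' : c x = (p x).castSucc
      · simp only [h', decide_true, Bool.not_true, Bool.and_false, B_false, mul_zero]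
        exact av_nonneg fun _ => B_nonneg _
      have hjp : j ≠ p x := fun hh => h' (by rw [hj, hh])
      have h3 := (kn j x (hp2 x j hjp)).1
      have h4 : (av fun y => B (decide (c x = c y) && !decide (c x = 3) && adj r x y)) =
          aa r c j x := by
        unfold aa
        congr 1
        funext y
        have e1 : decide (c x = 3) = false := decide_eq_false h
        have e2 : decide (c x = c y) = decide (c y = j.castSucc) := by
          rw [hj]; exact decide_eq_decide.2 eq_comm
        rw [e1, e2]
        simp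
      rw [h4]
      have h5 : B (!decide (c x = 3) && !decide (c x = (p x).castSucc)) = 1 := by
        rw [decide_eq_false h, decide_eq_false h']; rfl
      rw [h5]
      linarith
    have h3 : z' ≤ 6 * ce r c := by linarith
    linarith
  refine ⟨p, fun x => ?_, fun j => ?_⟩
  · have h := imp_le r c p x (p x)
    rw [← hz] at h
    have h1 : ip r p x + mp r p x = (av fun y => B (decide (p y = p x) && adj r x y)) +
      (av fun y => B (!decide (p y = p x) && !adj r x y)) := rfl
    rw [h1]
    have k1 := (key1 x).1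
    have m : ∀ j, 0.1768 * (if p x = j then aa r c j x else nn r c j x) ≤
        aa r c j x * nn r c j x := by
      intro j
      split_ifs with hj
      · rw [← hj]; exact (ka _ x (hp1 x).le).2
      · exact (kn j x (hp2 x j (Ne.symm hj))).2
    have m0 := m 0
    have m1 := m 1
    have m2 := m 2
    linarith
  · obtain ⟨D, hD⟩ : ∃ D : V → Fin 4, ∀ y, D y = if c y = (p y).castSucc then c y else 3 :=
      ⟨_, fun _ => rfl⟩
    have hcast : ∀ i : Fin 3, i.castSucc ≠ (3 : Fin 4) := by decide
    have hcu : cu D = z := by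
      rw [hz]
      unfold cu
      congr 1
      funext y
      congr 1
      rw [hD]
      by_cases h : c y = (p y).castSucc
      · rw [if_pos h, decide_eq_false (by rw [h]; exact hcast _), decide_eq_true h]
        rfl
      · rw [if_neg h, decide_eq_true rfl, decide_eq_false h]
        rfl
    have hs := be_sum D
    have hq := sizes r c D (fun x hx => by
      rw [hD] at hx ⊢
      by_cases h : c x = (p x).castSucc
      · rw [if_pos h]
      · rw [if_neg h] at hx; exact absurd rfl hx)
    have hg : 0.2272 ≤ be D j := by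
      rcases three j with h | h | h <;> rw [h]
      · exact (num_size (w := 1 - cu D) (g := be D 0) (h := be D 1) (k := be D 2)
          (by linarith) (by linarith) (by linarith) (by linarith)).1
      · exact (num_size (w := 1 - cu D) (g := be D 1) (h := be D 0) (k := be D 2)
          (by linarith) (by linarith) (by linarith) (by linarith)).1
      · exact (num_size (w := 1 - cu D) (g := be D 2) (h := be D 0) (k := be D 1)
          (by linarith) (by linarith) (by linarith) (by linarith)).1
    have hal : be D j ≤ al p j := by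
      unfold be al
      refine av_mono fun y => ?_
      by_cases h : c y = (p y).castSucc
      · have h1 : D y = (p y).castSucc := by rw [hD, if_pos h, h]
        by_cases h2 : p y = j
        · rw [decide_eq_true h2, B_true]
          unfold B; split_ifs <;> norm_num
        · have h3 : decide (D y = j.castSucc) = false :=
            decide_eq_false fun hh => h2 (Fin.castSucc_injective _ (h1.symm.trans hh))
          rw [h3, B_false]
          exact B_nonneg _
      · have h1 : D y = 3 := by rw [hD, if_neg h]
        have h3 : decide (D y = j.castSucc) = false :=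
          decide_eq_false fun hh => hcast j (hh.symm.trans h1)
        rw [h3, B_false]
        exact B_nonneg _
    linarith

end Pool.Agent.P8H52.FDF
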